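import Mathlib
import Pool.Agent.Lib.MP_c24e09_co.Final

/-!
# A power-saving bound for the cross-correlation of Golomb permutations, for every prime
-/

set_option autoImplicit false

namespace Pool.Agent.Results.MP_c24e09_co.GolombAllPrimes

open Pool.Agent.C24e09

/-- Let `p ≥ 5` be a prime and `t` the least prime with `p ≡ 1 (mod 2t)`. Every
cross-correlation `N` of two distinct Golomb permutations over the field with `p` elements
satisfies `N ≤ (p - 1) / t - 1` or `N ^ 4442 ≤ 2 ^ 4490 * p ^ 4441`. -/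
theorem result (p t : ℕ) (hp : p.Prime) (hp5 : 5 ≤ p)
    (ht : IsLeast {q : ℕ | q.Prime ∧ p ≡ 1 [MOD 2 * q]} t) (N : ℕ) (hN : N ∈ G2Values p) :
    N ≤ (p - 1) / t - 1 ∨ N ^ 4442 ≤ 2 ^ 4490 * p ^ 4441 :=
  golomb_all hp hp5 ht hN

end Pool.Agent.Results.MP_c24e09_co.GolombAllPrimes
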