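import Mathlib
import Pool.Agent.Lib.MP_c24e09_co.Final

/-!
# Maximal cross-correlation of the Welch and Golomb families for primes `p ≥ 2 ^ 8932 t ^ 4442`
-/

set_option autoImplicit false

namespace Pool.Agent.Results.MP_c24e09_co.WelchGolombExact

open Pool.Agent.C24e09

/-- Let `p ≥ 5` be a prime, let `t` be the least prime with `p ≡ 1 (mod 2t)`, and suppose that
`p ≥ 2 ^ 8932 * t ^ 4442`. Then the maximal cross-correlation of Welch permutations built from
different primitive roots is `(p - 1) / t`, and the maximal cross-correlation of two distinct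
Golomb permutations over the field with `p` elements is `(p - 1) / t - 1`. -/
theorem result (p t : ℕ) (hp : p.Prime) (hp5 : 5 ≤ p)
    (ht : IsLeast {q : ℕ | q.Prime ∧ p ≡ 1 [MOD 2 * q]} t) (hbig : 2 ^ 8932 * t ^ 4442 ≤ p) :
    IsGreatest (W1Values p) ((p - 1) / t) ∧ IsGreatest (G2Values p) ((p - 1) / t - 1) :=
  welch_golomb hp hp5 ht hbig

end Pool.Agent.Results.MP_c24e09_co.WelchGolombExact
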